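import Mathlib

/-!
# MP_5904a2_co: the ratio of the path variant to the distance Explorer-Director value is unbounded

The graph `Gr n`: hubs `w_0, ..., w_{n+1}` (pairwise adjacent), for every `m ≤ n` a clique
(called a bead) on `w_m`, `w_{m+1}` and `n` private vertices, and for every `i < n` a clique (called a tail) on
`w_{i+1}` and `n + i + 1` private vertices.  In the distance game the Director stays on an induced
path `t, w, w', t'` (4 vertices).  In the path variant, from a vertex of the `i`-th tail the
Explorer names the length `n^2 + 3n + 2i + 4`, which forces the token into the `(i+1)`-th tail.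
-/

namespace Pool.Agent.Results.MP_5904a2_co.UnboundedRatio

open SimpleGraph

/-- `Forces R m S u`: in the token game in which, with the token at `u`, the Explorer names an
integer `l ≥ 1` admitting at least one move, and the Director then moves the token to any `x` with
`R u l x`, the Explorer can force at least `m` distinct visited vertices (after finitely many
rounds), when `S` is the set of vertices visited so far and the token is at `u`. -/
inductive Forces {V : Type} [DecidableEq V] (R : V → ℕ → V → Prop) (m : ℕ) :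
    Finset V → V → Prop
  | done {S : Finset V} {u : V} : m ≤ S.card → Forces R m S u
  | move {S : Finset V} {u : V} (l : ℕ) : 1 ≤ l → (∃ x, R u l x) →
      (∀ x, R u l x → Forces R m (insert x S) x) → Forces R m S u

/-- The value of the token game from `v`: the largest number of distinct visited vertices (the
start counts) that the Explorer can force. -/
noncomputable def value {V : Type} [DecidableEq V] (R : V → ℕ → V → Prop) (v : V) : ℕ :=
  sSup {m | Forces R m {v} v}

/-- The Director's moves in the distance game. -/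
def distStep {V : Type} (G : SimpleGraph V) (u : V) (d : ℕ) (x : V) : Prop := G.dist u x = d

/-- The Director's moves in the path variant. -/
def pathStep {V : Type} (G : SimpleGraph V) (u : V) (l : ℕ) (x : V) : Prop :=
  ∃ p : G.Walk u x, p.IsPath ∧ p.length = l

/-- `f_d(G, v)`. -/
noncomputable def fd {V : Type} [DecidableEq V] (G : SimpleGraph V) (v : V) : ℕ :=
  value (distStep G) v

/-- `f_p(G, v)`. -/
noncomputable def fp {V : Type} [DecidableEq V] (G : SimpleGraph V) (v : V) : ℕ :=
  value (pathStep G) v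

/-! ### Generalities on the game -/

section Game

variable {V : Type} [DecidableEq V]

theorem Forces.le_card [Fintype V] {R : V → ℕ → V → Prop} {m : ℕ} {S : Finset V} {u : V}
    (h : Forces R m S u) : m ≤ Fintype.card V := by
  induction h with
  | done h => exact h.trans (Finset.card_le_univ _)
  | move l hl hx _ ih =>
    obtain ⟨x, hx⟩ := hx
    exact ih x hx

theorem bddAbove_forces [Fintype V] (R : V → ℕ → V → Prop) (v : V) :
    BddAbove {m | Forces R m {v} v} :=
  ⟨Fintype.card V, fun _ hm => Forces.le_card hm⟩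

theorem le_value [Fintype V] {R : V → ℕ → V → Prop} {m : ℕ} {v : V} (h : Forces R m {v} v) :
    m ≤ value R v :=
  le_csSup (bddAbove_forces R v) h

/-- A set `C` closed under good answers of the Director bounds what the Explorer can force. -/
theorem not_forces_of_closed {R : V → ℕ → V → Prop} {m : ℕ} (C : Finset V)
    (hC : ∀ u ∈ C, ∀ l, 1 ≤ l → (∃ x, R u l x) → ∃ x ∈ C, R u l x) (hm : C.card < m)
    {S : Finset V} {u : V} (h : Forces R m S u) : S ⊆ C → u ∈ C → False := by
  induction h with
  | done h =>
    intro hS _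
    have := Finset.card_le_card hS
    omega
  | move l hl hx _ ih =>
    intro hS hu
    obtain ⟨x, hxC, hx'⟩ := hC _ hu l hl hx
    refine ih x hx' ?_ hxC
    intro y hy
    rcases Finset.mem_insert.1 hy with rfl | hy
    · exact hxC
    · exact hS hy

theorem value_le_of_closed {R : V → ℕ → V → Prop} {v : V} (C : Finset V)
    (hC : ∀ u ∈ C, ∀ l, 1 ≤ l → (∃ x, R u l x) → ∃ x ∈ C, R u l x) (hv : v ∈ C) :
    value R v ≤ C.card := by
  refine csSup_le ⟨0, Forces.done (Nat.zero_le _)⟩ ?_
  intro m hm
  by_contra hlt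
  exact not_forces_of_closed C hC (not_le.1 hlt) hm (by simpa using hv) hv

end Game

/-! ### Generalities on paths -/

section Paths

variable {V : Type} [DecidableEq V] {G : SimpleGraph V}

omit [DecidableEq V] in
theorem glue {a b c : V} {p : G.Walk a b} {q : G.Walk b c} (hp : p.IsPath) (hq : q.IsPath)
    (h : ∀ y, y ∈ p.support → y ∈ q.support → y = b) : (p.append q).IsPath := by
  rw [Walk.isPath_def, Walk.support_append]
  rw [Walk.isPath_def] at hp hq
  have hq' := hq
  rw [← Walk.cons_tail_support] at hq'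
  rw [List.nodup_cons] at hq'
  refine List.Nodup.append hp hq'.2 ?_
  intro y hy hy'
  have h1 := h y hy (by rw [← Walk.cons_tail_support]; exact List.mem_cons_of_mem _ hy')
  rw [h1] at hy'
  exact hq'.1 hy'

theorem eq_of_mem_take_drop {a c y z : V} {p : G.Walk a c} (hp : p.IsPath) (hy : y ∈ p.support)
    (h1 : z ∈ (p.takeUntil y hy).support) (h2 : z ∈ (p.dropUntil y hy).support) : z = y := by
  have hp' := hp
  rw [← Walk.take_spec p hy, Walk.isPath_def, Walk.support_append] at hp'
  rw [← Walk.cons_tail_support] at h2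
  rcases List.mem_cons.1 h2 with h2 | h2
  · exact h2
  · exact absurd h2 (List.disjoint_of_nodup_append hp' h1)

/-- A path from outside `B` to outside `B` all of whose entrances to `B` are at `w` avoids `B`. -/
theorem sep {B : Set V} {w : V} (hw : w ∉ B) {s x : V} (r : G.Walk s x) (hr : r.IsPath)
    (hs : s ∉ B) (hx : x ∉ B)
    (hB : ∀ a b, a ∉ B → b ∈ B → G.Adj a b → a ∈ r.support → a = w) :
    ∀ y ∈ r.support, y ∉ B := by
  intro y hy hyB
  have h1 : w ∈ (r.takeUntil y hy).support := by
    obtain ⟨d, hd, hd1, hd2⟩ := (r.takeUntil y hy).exists_boundary_dart Bᶜ hs (by simpa using hyB)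
    have hd2' : d.snd ∈ B := by simpa using hd2
    have hmem : d.fst ∈ (r.takeUntil y hy).support := Walk.dart_fst_mem_support_of_mem_darts _ hd
    have := hB d.fst d.snd hd1 hd2' d.adj (Walk.support_takeUntil_subset_support _ _ hmem)
    rwa [this] at hmem
  have h2 : w ∈ (r.dropUntil y hy).support := by
    obtain ⟨d, hd, hd1, hd2⟩ := (r.dropUntil y hy).exists_boundary_dart B hyB hx
    have hmem : d.snd ∈ (r.dropUntil y hy).support := Walk.dart_snd_mem_support_of_mem_darts _ hd
    have := hB d.snd d.fst hd2 hd1 d.adj.symm (Walk.support_dropUntil_subset_support _ _ hmem)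
    rwa [this] at hmem
  have := eq_of_mem_take_drop hr hy h1 h2
  rw [this] at hw
  exact hw hyB

theorem length_lt_card {u x : V} (p : G.Walk u x) (hp : p.IsPath) (A : Finset V)
    (hA : ∀ y ∈ p.support, y ∈ A) : p.length + 1 ≤ A.card := by
  rw [← Walk.length_support]
  rw [Walk.isPath_def] at hp
  rw [← List.toFinset_card_of_nodup hp]
  exact Finset.card_le_card (fun y hy => hA y (List.mem_toFinset.1 hy))

omit [DecidableEq V] in
/-- A nodup list of pairwise adjacent vertices is the support of a path. -/
theorem clique_path (a b : V) (l : List V) (hl : (a :: (l ++ [b])).Nodup)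
    (hadj : ∀ x ∈ a :: (l ++ [b]), ∀ y ∈ a :: (l ++ [b]), x ≠ y → G.Adj x y) :
    ∃ p : G.Walk a b, p.IsPath ∧ p.length = l.length + 1 ∧
      ∀ y, y ∈ p.support ↔ y = a ∨ y ∈ l ∨ y = b := by
  have hpw : (a :: (l ++ [b])).Pairwise G.Adj := by
    refine List.Pairwise.imp_of_mem ?_ hl
    intro x y hx hy hne
    exact hadj x hx y hy hne
  have hch : (a :: (l ++ [b])).IsChain G.Adj := hpw.isChain
  let p0 := Walk.ofSupport (a :: (l ++ [b])) (List.cons_ne_nil _ _) hch
  have hlast : (a :: (l ++ [b])).getLast (List.cons_ne_nil _ _) = b := by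
    simp
  have hhead : (a :: (l ++ [b])).head (List.cons_ne_nil _ _) = a := rfl
  have hsupp : p0.support = a :: (l ++ [b]) := Walk.support_ofSupport _ hch
  have hlen : p0.length = l.length + 1 := by
    have := Walk.length_ofSupport (List.cons_ne_nil _ _) hch
    simp only [p0]
    rw [this]
    simp
  refine ⟨p0.copy hhead hlast, ?_, ?_, ?_⟩
  · rw [Walk.isPath_def, Walk.support_copy, hsupp]
    exact hl
  · rw [Walk.length_copy]
    exact hlen
  · intro y
    rw [Walk.support_copy, hsupp]
    simp

end Paths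

/-! ### The graph -/

/-- The vertices of `Gr n`. -/
inductive Vtx (n : ℕ)
  | hub (i : Fin (n + 2)) : Vtx n
  | bead (i : Fin (n + 1)) (q : Fin n) : Vtx n
  | tail (i : Fin n) (t : Fin (n + i + 1)) : Vtx n
  deriving DecidableEq, Fintype

open Vtx

/-- The adjacency relation without the condition that the two vertices are distinct. -/
def rel {n : ℕ} : Vtx n → Vtx n → Prop
  | hub _, hub _ => True
  | hub i, bead m _ => i.val = m.val ∨ i.val = m.val + 1
  | bead m _, hub i => i.val = m.val ∨ i.val = m.val + 1
  | bead m _, bead m' _ => m.val = m'.val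
  | hub i, tail j _ => i.val = j.val + 1
  | tail j _, hub i => i.val = j.val + 1
  | tail j _, tail j' _ => j.val = j'.val
  | bead _ _, tail _ _ => False
  | tail _ _, bead _ _ => False

/-- The graph. -/
def Gr (n : ℕ) : SimpleGraph (Vtx n) where
  Adj a b := a ≠ b ∧ rel a b
  symm := by
    constructor
    rintro (i | ⟨i, q⟩ | ⟨i, t⟩) (j | ⟨j, q'⟩ | ⟨j, t'⟩) ⟨h1, h2⟩ <;>
      simp_all [rel, eq_comm]
  loopless := ⟨fun a h => h.1 rfl⟩

theorem adj_iff {n : ℕ} {a b : Vtx n} : (Gr n).Adj a b ↔ a ≠ b ∧ rel a b := Iff.rfl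



theorem hub_adj {n : ℕ} {i j : Fin (n + 2)} (h : i ≠ j) : (Gr n).Adj (hub i) (hub j) :=
  ⟨by simpa using h, trivial⟩

/-- The home hub of a vertex. -/
def home {n : ℕ} : Vtx n → Fin (n + 2)
  | hub i => i
  | bead m _ => ⟨m.val, by omega⟩
  | tail i _ => ⟨i.val + 1, by omega⟩

theorem home_spec {n : ℕ} (v : Vtx n) : v = hub (home v) ∨ (Gr n).Adj (hub (home v)) v := by
  rcases v with i | ⟨m, q⟩ | ⟨i, t⟩
  · left; rfl
  · right
    refine ⟨by simp, ?_⟩
    left; rfl
  · right
    exact ⟨by simp, rfl⟩

/-- From every hub every vertex is reached by a walk of length at most 2. -/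
theorem hub_walk {n : ℕ} (i : Fin (n + 2)) (v : Vtx n) :
    ∃ p : (Gr n).Walk (hub i) v, p.length ≤ 2 := by
  by_cases hi : i = home v
  · subst hi
    rcases home_spec v with h | h
    · rw [← h]
      exact ⟨Walk.nil, by simp⟩
    · exact ⟨Walk.cons h Walk.nil, by simp⟩
  · rcases home_spec v with h | h
    · rw [h]
      exact ⟨Walk.cons (hub_adj hi) Walk.nil, by simp⟩
    · exact ⟨Walk.cons (hub_adj hi) (Walk.cons h Walk.nil), by simp⟩

theorem connected_Gr (n : ℕ) : (Gr n).Connected := by
  have : Nonempty (Vtx n) := ⟨hub 0⟩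
  refine Connected.mk ?_
  intro a b
  obtain ⟨p, _⟩ := hub_walk (0 : Fin (n + 2)) a
  obtain ⟨q, _⟩ := hub_walk (0 : Fin (n + 2)) b
  exact ⟨p.reverse.append q⟩

theorem dist_hub_le {n : ℕ} (i : Fin (n + 2)) (v : Vtx n) : (Gr n).dist (hub i) v ≤ 2 := by
  obtain ⟨p, hp⟩ := hub_walk i v
  exact (dist_le p).trans hp

theorem dist_le_three {n : ℕ} (u v : Vtx n) (i : Fin (n + 2)) (h : (Gr n).Adj u (hub i)) :
    (Gr n).dist u v ≤ 3 := by
  obtain ⟨p, hp⟩ := hub_walk i v
  refine (dist_le (Walk.cons h p)).trans ?_
  rw [Walk.length_cons]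
  omega

theorem dist_eq_two {V : Type} {G : SimpleGraph V} {a b c : V} (h1 : G.Adj a c)
    (h2 : G.Adj c b) (hne : a ≠ b) (hn : ¬ G.Adj a b) : G.dist a b = 2 := by
  have hle : G.dist a b ≤ 2 := (dist_le (Walk.cons h1 (Walk.cons h2 Walk.nil))).trans (by simp)
  have hr : G.Reachable a b := ⟨Walk.cons h1 (Walk.cons h2 Walk.nil)⟩
  have h0 : G.dist a b ≠ 0 := by
    intro h
    rcases dist_eq_zero_iff_eq_or_not_reachable.1 h with h | h
    · exact hne h
    · exact h hr
  have h1' : G.dist a b ≠ 1 := fun h => hn (dist_eq_one_iff_adj.1 h)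
  omega

theorem dist_eq_three {V : Type} {G : SimpleGraph V} {a b c d : V} (h1 : G.Adj a c)
    (h2 : G.Adj c d) (h3 : G.Adj d b) (hne : a ≠ b) (hn : ¬ G.Adj a b)
    (hn2 : ∀ e, G.Adj a e → ¬ G.Adj e b) : G.dist a b = 3 := by
  have hle : G.dist a b ≤ 3 :=
    (dist_le (Walk.cons h1 (Walk.cons h2 (Walk.cons h3 Walk.nil)))).trans (by simp)
  have hr : G.Reachable a b := ⟨Walk.cons h1 (Walk.cons h2 (Walk.cons h3 Walk.nil))⟩
  obtain ⟨p, hp⟩ := hr.exists_walk_length_eq_dist
  rw [← hp] at hle ⊢
  cases p with
  | nil => exact absurd rfl hne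
  | cons h q =>
    cases q with
    | nil => exact absurd h hn
    | cons h' q' =>
      cases q' with
      | nil => exact absurd h' (hn2 _ h)
      | cons h'' q'' =>
        rw [Walk.length_cons, Walk.length_cons, Walk.length_cons] at hle ⊢
        omega

/-! ### The distance game: the Director visits at most four vertices -/

theorem fd_le {n : ℕ} (hn : 2 ≤ n) :
    fd (Gr n) (tail ⟨0, by omega⟩ ⟨0, by omega⟩) ≤ 4 := by
  set t : Vtx n := tail ⟨0, by omega⟩ ⟨0, by omega⟩ with ht
  set t' : Vtx n := tail ⟨1, by omega⟩ ⟨0, by simp⟩ with ht'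
  set w : Fin (n + 2) := ⟨1, by omega⟩ with hw
  set w' : Fin (n + 2) := ⟨2, by omega⟩ with hw'
  have a1 : (Gr n).Adj t (hub w) := ⟨by simp [ht], by simp [ht, rel, hw]⟩
  have a2 : (Gr n).Adj (hub w) (hub w') := hub_adj (by simp [hw, hw'])
  have a3 : (Gr n).Adj (hub w') t' := ⟨by simp [ht'], by simp [ht', rel, hw']⟩
  have n1 : ¬ (Gr n).Adj t (hub w') := by
    rintro ⟨_, h⟩
    simp [ht, rel, hw'] at h
  have n2 : ¬ (Gr n).Adj (hub w) t' := by
    rintro ⟨_, h⟩
    simp [ht', rel, hw] at h
  have n3 : ¬ (Gr n).Adj t t' := by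
    rintro ⟨_, h⟩
    simp [ht, ht', rel] at h
  have n4 : ∀ e, (Gr n).Adj t e → ¬ (Gr n).Adj e t' := by
    rintro (i | ⟨m, q⟩ | ⟨i, s⟩) ⟨_, h⟩ ⟨_, h'⟩
    · simp [ht, rel] at h
      simp [ht', rel] at h'
      omega
    · simp [ht, rel] at h
    · simp [ht, rel] at h
      simp [ht', rel] at h'
      omega
  have ne1 : t ≠ hub w' := by simp [ht]
  have ne2 : hub w ≠ t' := by simp [ht']
  have ne3 : t ≠ t' := by simp [ht, ht']
  have d1 : (Gr n).dist t (hub w) = 1 := dist_eq_one_iff_adj.2 a1
  have d2 : (Gr n).dist t (hub w') = 2 := dist_eq_two a1 a2 ne1 n1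
  have d3 : (Gr n).dist t t' = 3 := dist_eq_three a1 a2 a3 ne3 n3 n4
  have d4 : (Gr n).dist (hub w) (hub w') = 1 := dist_eq_one_iff_adj.2 a2
  have d5 : (Gr n).dist (hub w) t' = 2 := dist_eq_two a2 a3 ne2 n2
  have d6 : (Gr n).dist (hub w') t' = 1 := dist_eq_one_iff_adj.2 a3
  have hC := value_le_of_closed (R := distStep (Gr n)) (v := t) {t, hub w, hub w', t'} ?_ ?_
  · refine hC.trans ?_
    exact Finset.card_le_four
  · intro u hu l hl hx
    obtain ⟨x, hx⟩ := hx
    unfold distStep at hx ⊢
    simp only [Finset.mem_insert, Finset.mem_singleton] at hu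
    rcases hu with rfl | rfl | rfl | rfl
    · have hle : l ≤ 3 := by
        rw [← hx]
        exact dist_le_three _ _ _ a1
      interval_cases l
      · exact ⟨hub w, by simp, d1⟩
      · exact ⟨hub w', by simp, d2⟩
      · exact ⟨t', by simp, d3⟩
    · have hle : l ≤ 2 := by
        rw [← hx]
        exact dist_hub_le _ _
      interval_cases l
      · exact ⟨hub w', by simp, d4⟩
      · exact ⟨t', by simp, d5⟩
    · have hle : l ≤ 2 := by
        rw [← hx]
        exact dist_hub_le _ _
      interval_cases l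
      · exact ⟨hub w, by simp, by rw [dist_comm]; exact d4⟩
      · exact ⟨t, by simp, by rw [dist_comm]; exact d2⟩
    · have hle : l ≤ 3 := by
        rw [← hx]
        exact dist_le_three _ _ _ a3.symm
      interval_cases l
      · exact ⟨hub w', by simp, by rw [dist_comm]; exact d6⟩
      · exact ⟨hub w, by simp, by rw [dist_comm]; exact d5⟩
      · exact ⟨t, by simp, by rw [dist_comm]; exact d3⟩
  · simp

/-! ### The path variant -/

/-- `v` is in bead `m`. -/
def isBead {n : ℕ} (m : ℕ) : Vtx n → Prop
  | bead m' _ => m'.val = m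
  | _ => False

/-- `v` is in tail `i`. -/
def isTail {n : ℕ} (i : ℕ) : Vtx n → Prop
  | tail i' _ => i'.val = i
  | _ => False

/-- `v` is the hub `i`. -/
def isHub {n : ℕ} (i : ℕ) : Vtx n → Prop
  | hub i' => i'.val = i
  | _ => False

theorem isHub.eq {n i : ℕ} {a : Vtx n} (h : isHub i a) (w : Fin (n + 2)) (hw : w.val = i) :
    a = hub w := by
  rcases a with i' | ⟨m, q⟩ | ⟨i', s⟩
  · simp only [isHub] at h
    congr 1
    exact Fin.ext (by omega)
  · exact absurd h (by simp [isHub])
  · exact absurd h (by simp [isHub])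

theorem tail_boundary {n i : ℕ} {a b : Vtx n} (ha : ¬ isTail i a) (hb : isTail i b)
    (h : (Gr n).Adj a b) : isHub (i + 1) a := by
  obtain ⟨_, h⟩ := h
  rcases a with i' | ⟨m, q⟩ | ⟨i', s⟩ <;> rcases b with j' | ⟨m', q'⟩ | ⟨j', s'⟩ <;>
    simp_all [isTail, isHub, rel]

theorem bead_boundary {n m : ℕ} {a b : Vtx n} (ha : ¬ isBead m a) (hb : isBead m b)
    (h : (Gr n).Adj a b) : isHub m a ∨ isHub (m + 1) a := by
  obtain ⟨_, h⟩ := h
  rcases a with i' | ⟨m, q⟩ | ⟨i', s⟩ <;> rcases b with j' | ⟨m', q'⟩ | ⟨j', s'⟩ <;>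
    simp_all [isBead, isHub, rel]

/-- A path starting in tail `i` and ending in another tail misses bead `i` or bead `i + 1`. -/
theorem miss {n : ℕ} {i j : ℕ} {u x : Vtx n} (hi : i < n) (hu : isTail i u) (hx : isTail j x)
    (hij : i ≠ j) (p : (Gr n).Walk u x) (hp : p.IsPath) :
    ∃ e, (e = i ∨ e = i + 1) ∧ ∀ y ∈ p.support, ¬ isBead e y := by
  have hxi : ¬ isTail i x := by
    rcases x with i' | ⟨m, q⟩ | ⟨i', s⟩
    · simp [isTail]
    · simp [isTail]
    · simp only [isTail] at hx ⊢
      omega
  set w : Vtx n := hub ⟨i + 1, by omega⟩ with hw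
  have hwT : ∀ k, ¬ isTail k w := by intro k; simp [hw, isTail]
  have hwB : ∀ k, ¬ isBead k w := by intro k; simp [hw, isBead]
  have hxB : ∀ k, ¬ isBead k x := by
    intro k
    rcases x with i' | ⟨m, q⟩ | ⟨i', s⟩
    · exact absurd hx (by simp [isTail])
    · exact absurd hx (by simp [isTail])
    · simp [isBead]
  have hwp : w ∈ p.support := by
    obtain ⟨d, hd, hd1, hd2⟩ := p.exists_boundary_dart {y | isTail i y} hu hxi
    have := tail_boundary hd2 hd1 d.adj.symm
    have h2 := this.eq ⟨i + 1, by omega⟩ rfl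
    rw [hw, ← h2]
    exact Walk.dart_snd_mem_support_of_mem_darts _ hd
  -- the first part of the path
  have hr1 : ∀ y ∈ (p.takeUntil w hwp).support, isTail i y ∨ y = w := by
    have := sep (B := {y | ¬ (isTail i y ∨ y = w)}) (w := w) (by simp) (p.takeUntil w hwp)
      (hp.takeUntil hwp) (by simp [hu]) (by simp) ?_
    · intro y hy
      have h := this y hy
      by_contra hcon
      exact h hcon
    · intro a b ha hb hab _
      have hb' : ¬ (isTail i b ∨ b = w) := hb
      have ha' : isTail i a ∨ a = w := by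
        by_contra hcon
        exact ha hcon
      rw [not_or] at hb'
      rcases ha' with ha | ha
      · exfalso
        have := tail_boundary hb'.1 ha hab.symm
        exact hb'.2 (this.eq ⟨i + 1, by omega⟩ rfl)
      · exact ha
  have hr1B : ∀ e, ∀ y ∈ (p.takeUntil w hwp).support, ¬ isBead e y := by
    intro e y hy
    rcases hr1 y hy with h | h
    · rcases y with i' | ⟨m, q⟩ | ⟨i', s⟩
      · simp [isBead]
      · exact absurd h (by simp [isTail])
      · simp [isBead]
    · rw [h]; exact hwB e
  have hsupp : ∀ y ∈ p.support, y ∈ (p.takeUntil w hwp).support ∨ y ∈ (p.dropUntil w hwp).support := by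
    intro y hy
    rw [← Walk.take_spec p hwp, Walk.mem_support_append_iff] at hy
    exact hy
  have hq := hp.dropUntil hwp
  revert hsupp hq
  generalize p.dropUntil w hwp = q
  intro hsupp hq
  have hwx : w ≠ x := by
    intro h
    rw [← h] at hx
    exact hwT j hx
  obtain ⟨s, h, r, rfl⟩ := Walk.exists_eq_cons_of_ne hwx q
  · rw [Walk.cons_isPath_iff] at hq
    -- the bead not containing `s`
    have key : ∀ e, (e = i ∨ e = i + 1) → ¬ isBead e s → ∀ y ∈ p.support, ¬ isBead e y := by
      intro e he hse y hy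
      rcases hsupp y hy with hy | hy
      · exact hr1B e y hy
      · rw [Walk.support_cons, List.mem_cons] at hy
        rcases hy with rfl | hy
        · exact hwB e
        · -- the other boundary hub
          have hsep := sep (B := {y | isBead e y})
            (w := hub ⟨if e = i then i else i + 2, by split_ifs <;> omega⟩) (by simp [isBead])
            r hq.1 hse (hxB e) ?_
          · exact hsep y hy
          · intro a b ha hb hab har
            rcases bead_boundary ha hb hab with h' | h'
            · rcases he with he | he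
              · refine h'.eq _ ?_
                simp [he]
              · exfalso
                apply hq.2
                rw [he] at h'
                rw [hw, ← h'.eq ⟨i + 1, by omega⟩ rfl]
                exact har
            · rcases he with he | he
              · exfalso
                apply hq.2
                rw [he] at h'
                rw [hw, ← h'.eq ⟨i + 1, by omega⟩ rfl]
                exact har
              · refine h'.eq _ ?_
                simp [he]
    by_cases hs : isBead i s
    · refine ⟨i + 1, Or.inr rfl, key (i + 1) (Or.inr rfl) ?_⟩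
      rcases s with i' | ⟨m, q⟩ | ⟨i', s⟩
      · simp [isBead]
      · simp only [isBead] at hs ⊢
        omega
      · simp [isBead]
    · exact ⟨i, Or.inl rfl, key i (Or.inl rfl) hs⟩

/-- A path avoids every tail which contains neither end. -/
theorem avoid_tail {n : ℕ} {k : ℕ} {u x : Vtx n} (hk : k < n) (hu : ¬ isTail k u)
    (hx : ¬ isTail k x) (p : (Gr n).Walk u x) (hp : p.IsPath) :
    ∀ y ∈ p.support, ¬ isTail k y := by
  refine sep (B := {y | isTail k y}) (w := hub ⟨k + 1, by omega⟩) (by simp [isTail]) p hp hu hx ?_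
  intro a b ha hb hab _
  exact (tail_boundary ha hb hab).eq _ rfl

/-- The counting bound. -/
theorem card_bound {n : ℕ} {u x : Vtx n} (p : (Gr n).Walk u x) (hp : p.IsPath)
    (E : Finset (Fin (n + 1))) (J : Finset (Fin n))
    (h1 : ∀ m q, bead m q ∈ p.support → m ∈ E) (h2 : ∀ k t, tail k t ∈ p.support → k ∈ J) :
    p.length + 1 ≤ (n + 2) + E.card * n + ∑ k ∈ J, (n + k.val + 1) := by
  have hA := length_lt_card p hp
    ((Finset.univ.image (fun i : Fin (n + 2) => (hub i : Vtx n))) ∪
      ((E ×ˢ (Finset.univ : Finset (Fin n))).image (fun z => bead z.1 z.2)) ∪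
      (J.biUnion (fun k => (Finset.univ : Finset (Fin (n + k.val + 1))).image (fun t => tail k t))))
    ?_
  · refine hA.trans ((Finset.card_union_le _ _).trans ?_)
    refine Nat.add_le_add ((Finset.card_union_le _ _).trans ?_) ?_
    · refine Nat.add_le_add (Finset.card_image_le.trans ?_) (Finset.card_image_le.trans ?_)
      · simp
      · simp
    · refine Finset.card_biUnion_le.trans (Finset.sum_le_sum ?_)
      intro k _
      refine Finset.card_image_le.trans ?_
      simp
  · intro y hy
    rcases y with i' | ⟨m, q⟩ | ⟨i', s⟩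
    · simp
    · simp [h1 m q hy]
    · simp [h2 i' s hy]

/-- Every path of the named length from tail `i` ends in tail `i + 1`. -/
theorem upper {n i : ℕ} {u x : Vtx n} (hi : i + 1 < n) (hu : isTail i u) (p : (Gr n).Walk u x)
    (hp : p.IsPath) (hl : p.length = n * n + 3 * n + 2 * i + 4) : isTail (i + 1) x := by
  by_contra hx
  by_cases hj : ∃ j, j < n ∧ j ≠ i ∧ isTail j x
  · obtain ⟨j, hjn, hji, hjx⟩ := hj
    have hji' : j ≠ i + 1 := by
      intro h
      rw [h] at hjx
      exact hx hjx
    have htails : ∀ k t, tail k t ∈ p.support →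
        k ∈ ({⟨i, by omega⟩, ⟨j, hjn⟩} : Finset (Fin n)) := by
      intro k t hk
      by_contra hcon
      simp only [Finset.mem_insert, Finset.mem_singleton, not_or] at hcon
      have hki : k.val ≠ i := fun h => hcon.1 (Fin.ext h)
      have hkj : k.val ≠ j := fun h => hcon.2 (Fin.ext h)
      refine avoid_tail (k := k.val) k.isLt ?_ ?_ p hp _ hk (by simp [isTail])
      · rcases u with i' | ⟨m, q⟩ | ⟨i', s⟩
        · simp [isTail]
        · simp [isTail]
        · simp only [isTail] at hu ⊢
          omega
      · rcases x with i' | ⟨m, q⟩ | ⟨i', s⟩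
        · simp [isTail]
        · simp [isTail]
        · simp only [isTail] at hjx ⊢
          omega
    have hne : (⟨i, by omega⟩ : Fin n) ≠ ⟨j, hjn⟩ := by
      intro h
      rw [Fin.mk.injEq] at h
      omega
    have hsum : ∑ k ∈ ({⟨i, by omega⟩, ⟨j, hjn⟩} : Finset (Fin n)), (n + k.val + 1) =
        (n + i + 1) + (n + j + 1) := by
      rw [Finset.sum_pair hne]
    obtain ⟨e, he, heB⟩ := miss (by omega) hu hjx (Ne.symm hji) p hp
    by_cases hlt : j < i
    · have := card_bound p hp (Finset.univ.erase ⟨e, by omega⟩) _ ?_ htails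
      · rw [hsum, hl, Finset.card_erase_of_mem (Finset.mem_univ _), Finset.card_univ,
          Fintype.card_fin] at this
        have h2 : n + 1 - 1 = n := by omega
        rw [h2] at this
        omega
      · intro m q hm
        rw [Finset.mem_erase]
        refine ⟨?_, Finset.mem_univ _⟩
        intro h
        exact heB _ hm (by simp [isBead, h])
    · obtain ⟨f, hf, hfB⟩ := miss (u := x) (x := u) (by omega) hjx hu hji p.reverse hp.reverse
      have hef : (⟨f, by omega⟩ : Fin (n + 1)) ≠ ⟨e, by omega⟩ := by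
        intro h
        rw [Fin.mk.injEq] at h
        omega
      have := card_bound p hp ((Finset.univ.erase ⟨e, by omega⟩).erase ⟨f, by omega⟩) _ ?_ htails
      · rw [hsum, hl, Finset.card_erase_of_mem (by simp [hef]),
          Finset.card_erase_of_mem (Finset.mem_univ _), Finset.card_univ, Fintype.card_fin] at this
        have h2 : n + 1 - 1 - 1 = n - 1 := by omega
        rw [h2, Nat.sub_mul] at this
        have h3 : n ≤ n * n := Nat.le_mul_self n
        omega
      · intro m q hm
        rw [Finset.mem_erase, Finset.mem_erase]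
        refine ⟨?_, ?_, Finset.mem_univ _⟩
        · intro h
          exact hfB _ (by rw [Walk.support_reverse, List.mem_reverse]; exact hm)
            (by simp [isBead, h])
        · intro h
          exact heB _ hm (by simp [isBead, h])
  · have := card_bound p hp Finset.univ {⟨i, by omega⟩} (fun m q _ => Finset.mem_univ _) ?_
    · rw [hl, Finset.sum_singleton, Finset.card_univ, Fintype.card_fin, Nat.add_mul] at this
      simp only [one_mul] at this
      omega
    · intro k t hk
      by_contra hcon
      rw [Finset.mem_singleton] at hcon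
      have hki : k.val ≠ i := fun h => hcon (Fin.ext h)
      refine avoid_tail (k := k.val) k.isLt ?_ ?_ p hp _ hk (by simp [isTail])
      · rcases u with i' | ⟨m, q⟩ | ⟨i', s⟩
        · simp [isTail]
        · simp [isTail]
        · simp only [isTail] at hu ⊢
          omega
      · intro h
        exact hj ⟨k.val, k.isLt, hki, h⟩

/-- Crossing a bead. -/
theorem cross {n : ℕ} (m : Fin (n + 1)) (h1 : m.val + 1 < n + 2) (h2 : m.val < n + 2) :
    ∃ p : (Gr n).Walk (hub ⟨m.val + 1, h1⟩) (hub ⟨m.val, h2⟩), p.IsPath ∧ p.length = n + 1 ∧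
      ∀ y ∈ p.support, y = hub ⟨m.val + 1, h1⟩ ∨ (∃ q, y = bead m q) ∨ y = hub ⟨m.val, h2⟩ := by
  have hnd : (hub ⟨m.val + 1, h1⟩ ::
      (((List.finRange n).map (bead m)) ++ [hub ⟨m.val, h2⟩])).Nodup := by
    rw [List.nodup_cons]
    constructor
    · simp
    · rw [List.nodup_append]
      refine ⟨?_, by simp, ?_⟩
      · refine List.Nodup.map ?_ (List.nodup_finRange n)
        intro a b h
        simpa using h
      · simp
  have hadj : ∀ x ∈ hub ⟨m.val + 1, h1⟩ ::
      (((List.finRange n).map (bead m)) ++ [hub ⟨m.val, h2⟩]),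
      ∀ y ∈ hub ⟨m.val + 1, h1⟩ ::
      (((List.finRange n).map (bead m)) ++ [hub ⟨m.val, h2⟩]), x ≠ y → (Gr n).Adj x y := by
    intro x hx y hy hne
    refine ⟨hne, ?_⟩
    simp only [List.mem_cons, List.mem_append, List.mem_map, List.mem_finRange, true_and,
      List.not_mem_nil, or_false] at hx hy
    rcases hx with rfl | ⟨q, rfl⟩ | rfl <;> rcases hy with rfl | ⟨q', rfl⟩ | rfl <;>
      simp [rel]
  obtain ⟨p, hp1, hp2, hp3⟩ := clique_path (G := Gr n) (hub ⟨m.val + 1, h1⟩) (hub ⟨m.val, h2⟩)
    ((List.finRange n).map (bead m)) hnd hadj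
  refine ⟨p, hp1, by simpa using hp2, ?_⟩
  intro y hy
  rcases (hp3 y).1 hy with h | h | h
  · exact Or.inl h
  · right; left
    obtain ⟨q, _, rfl⟩ := List.mem_map.1 h
    exact ⟨q, rfl⟩
  · exact Or.inr (Or.inr h)

/-- Leaving a tail after visiting all of it. -/
theorem leave {n : ℕ} (i : Fin n) (t : Fin (n + i.val + 1)) (h1 : i.val + 1 < n + 2) :
    ∃ p : (Gr n).Walk (tail i t) (hub ⟨i.val + 1, h1⟩), p.IsPath ∧ p.length = n + i.val + 1 ∧
      ∀ y ∈ p.support, isTail i.val y ∨ y = hub ⟨i.val + 1, h1⟩ := by
  have hinj : Function.Injective (fun t : Fin (n + i.val + 1) => (tail i t : Vtx n)) := by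
    intro a b h
    simpa using h
  have hnd : (tail i t :: ((((List.finRange (n + i.val + 1)).erase t).map
      (fun t => (tail i t : Vtx n))) ++ [hub ⟨i.val + 1, h1⟩])).Nodup := by
    rw [List.nodup_cons]
    constructor
    · intro h
      rcases List.mem_append.1 h with h | h
      · obtain ⟨q, hq, hq'⟩ := List.mem_map.1 h
        have : q = t := hinj hq'
        rw [this] at hq
        exact (List.Nodup.mem_erase_iff (List.nodup_finRange _)).1 hq |>.1 rfl
      · simp at h
    · rw [List.nodup_append]
      refine ⟨?_, by simp, ?_⟩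
      · exact List.Nodup.map hinj ((List.nodup_finRange _).erase t)
      · simp
  have hadj : ∀ x ∈ tail i t :: ((((List.finRange (n + i.val + 1)).erase t).map
      (fun t => (tail i t : Vtx n))) ++ [hub ⟨i.val + 1, h1⟩]),
      ∀ y ∈ tail i t :: ((((List.finRange (n + i.val + 1)).erase t).map
      (fun t => (tail i t : Vtx n))) ++ [hub ⟨i.val + 1, h1⟩]), x ≠ y → (Gr n).Adj x y := by
    intro x hx y hy hne
    refine ⟨hne, ?_⟩
    have aux : ∀ z : Vtx n, z ∈ tail i t ::
        ((((List.finRange (n + i.val + 1)).erase t).map (fun t => tail i t)) ++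
          [hub ⟨i.val + 1, h1⟩]) → (∃ q, z = tail i q) ∨ z = hub ⟨i.val + 1, h1⟩ := by
      intro z hz
      rcases List.mem_cons.1 hz with h | h
      · exact Or.inl ⟨t, h⟩
      · rcases List.mem_append.1 h with h | h
        · obtain ⟨q, _, rfl⟩ := List.mem_map.1 h
          exact Or.inl ⟨q, rfl⟩
        · exact Or.inr (by simpa using h)
    rcases aux x hx with ⟨q, rfl⟩ | rfl <;> rcases aux y hy with ⟨q', rfl⟩ | rfl <;>
      simp [rel]
  obtain ⟨p, hp1, hp2, hp3⟩ := clique_path (G := Gr n) (tail i t) (hub ⟨i.val + 1, h1⟩)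
    (((List.finRange (n + i.val + 1)).erase t).map (fun t => tail i t)) hnd hadj
  refine ⟨p, hp1, ?_, ?_⟩
  · rw [hp2, List.length_map, List.length_erase_of_mem (List.mem_finRange t),
      List.length_finRange]
    omega
  · intro y hy
    rcases (hp3 y).1 hy with h | h | h
    · left; rw [h]; simp [isTail]
    · left
      obtain ⟨q, _, rfl⟩ := List.mem_map.1 h
      simp [isTail]
    · exact Or.inr h

/-- `y` is a hub with index in `[lo, hi]` or in a bead with index in `[lo, hi)`. -/
def inRange {n : ℕ} (lo hi : ℕ) : Vtx n → Prop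
  | hub m => lo ≤ m.val ∧ m.val ≤ hi
  | bead m _ => lo ≤ m.val ∧ m.val < hi
  | tail _ _ => False

/-- Descending through `d` beads. -/
theorem desc {n : ℕ} (lo : ℕ) (hlo : lo < n + 2) : ∀ (d a : ℕ) (_ : a = lo + d)
    (ha : a < n + 2), ∃ p : (Gr n).Walk (hub ⟨a, ha⟩) (hub ⟨lo, hlo⟩), p.IsPath ∧
      p.length = d * (n + 1) ∧ ∀ y ∈ p.support, inRange lo a y := by
  intro d
  induction d with
  | zero =>
    intro a h ha
    have h' : a = lo := by omega
    subst h'
    refine ⟨Walk.nil, Walk.IsPath.nil, by simp, ?_⟩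
    intro y hy
    rw [Walk.support_nil, List.mem_singleton] at hy
    rw [hy]
    exact ⟨le_rfl, le_rfl⟩
  | succ d ih =>
    intro a h ha
    have h' : a = (lo + d) + 1 := by omega
    subst h'
    obtain ⟨q, hq1, hq2, hq3⟩ := ih (lo + d) rfl (by omega)
    obtain ⟨r, hr1, hr2, hr3⟩ := cross (⟨lo + d, by omega⟩ : Fin (n + 1)) ha (by omega)
    refine ⟨r.append q, glue hr1 hq1 ?_, ?_, ?_⟩
    · intro y hy1 hy2
      have hq := hq3 y hy2
      rcases hr3 y hy1 with rfl | ⟨z, rfl⟩ | rfl
      · simp [inRange] at hq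
      · simp [inRange] at hq
      · rfl
    · rw [Walk.length_append, hr2, hq2, Nat.add_mul]
      omega
    · intro y hy
      rw [Walk.mem_support_append_iff] at hy
      rcases hy with hy | hy
      · rcases hr3 y hy with rfl | ⟨z, rfl⟩ | rfl
        · simp only [inRange]; omega
        · simp only [inRange]; omega
        · simp only [inRange]; omega
      · have := hq3 y hy
        rcases y with i' | ⟨m, q⟩ | ⟨i', s⟩
        · simp only [inRange] at this ⊢; omega
        · simp only [inRange] at this ⊢; omega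
        · exact this

/-- The named length occurs. -/
theorem long {n : ℕ} (i : Fin n) (t : Fin (n + i.val + 1)) (hi : i.val + 1 < n) :
    ∃ x, ∃ p : (Gr n).Walk (tail i t) x, p.IsPath ∧
      p.length = n * n + 3 * n + 2 * i.val + 4 := by
  obtain ⟨t1, ht1, ht2, ht3⟩ := leave i t (by omega)
  obtain ⟨d1, hd1, hd2, hd3⟩ := desc (n := n) 0 (by omega) (i.val + 1) (i.val + 1) (by omega)
    (by omega)
  obtain ⟨d2, hc1, hc2, hc3⟩ := desc (n := n) (i.val + 2) (by omega) (n - 1 - i.val) (n + 1)
    (by omega) (by omega)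
  obtain ⟨t2, hs1, hs2, hs3⟩ := leave (⟨i.val + 1, hi⟩ : Fin n) ⟨0, by omega⟩ (by
    show i.val + 1 + 1 < n + 2
    omega)
  have e : (Gr n).Adj (hub ⟨0, by omega⟩) (hub ⟨n + 1, by omega⟩) := hub_adj (by simp)
  have P1 : (t1.append d1).IsPath := by
    refine glue ht1 hd1 ?_
    intro y hy1 hy2
    rcases ht3 y hy1 with h | h
    · have := hd3 y hy2
      rcases y with i' | ⟨m, q⟩ | ⟨i', s⟩
      · exact absurd h (by simp [isTail])
      · exact absurd h (by simp [isTail])
      · exact absurd this (by simp [inRange])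
    · exact h
  have P2 : (d2.append t2.reverse).IsPath := by
    refine glue hc1 hs1.reverse ?_
    intro y hy1 hy2
    rw [Walk.support_reverse, List.mem_reverse] at hy2
    rcases hs3 y hy2 with h | h
    · have := hc3 y hy1
      rcases y with i' | ⟨m, q⟩ | ⟨i', s⟩
      · exact absurd h (by simp [isTail])
      · exact absurd h (by simp [isTail])
      · exact absurd this (by simp [inRange])
    · exact h
  have S1 : ∀ y ∈ (t1.append d1).support, isTail i.val y ∨ inRange 0 (i.val + 1) y := by
    intro y hy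
    rw [Walk.mem_support_append_iff] at hy
    rcases hy with hy | hy
    · rcases ht3 y hy with h | rfl
      · exact Or.inl h
      · right; simp [inRange]
    · exact Or.inr (hd3 y hy)
  have S2 : ∀ y ∈ (d2.append t2.reverse).support,
      isTail (i.val + 1) y ∨ inRange (i.val + 2) (n + 1) y := by
    intro y hy
    rw [Walk.mem_support_append_iff] at hy
    rcases hy with hy | hy
    · exact Or.inr (hc3 y hy)
    · rw [Walk.support_reverse, List.mem_reverse] at hy
      rcases hs3 y hy with h | rfl
      · exact Or.inl h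
      · right; simp [inRange]
  have P3 : (Walk.cons e (d2.append t2.reverse)).IsPath := by
    rw [Walk.cons_isPath_iff]
    refine ⟨P2, ?_⟩
    intro h
    rcases S2 _ h with h | h
    · exact absurd h (by simp [isTail])
    · simp [inRange] at h
  refine ⟨_, (t1.append d1).append (Walk.cons e (d2.append t2.reverse)), glue P1 P3 ?_, ?_⟩
  · intro y hy1 hy2
    rw [Walk.support_cons, List.mem_cons] at hy2
    rcases hy2 with h | h
    · exact h
    · exfalso
      have h1 := S1 y hy1
      have h2 := S2 y h
      rcases y with i' | ⟨m, q⟩ | ⟨i', s⟩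
      · simp only [isTail, inRange, false_or] at h1 h2
        omega
      · simp only [isTail, inRange, false_or] at h1 h2
        omega
      · simp only [isTail, inRange, or_false] at h1 h2
        omega
  · rw [Walk.length_append, Walk.length_append, Walk.length_cons, Walk.length_append,
      Walk.length_reverse, ht2, hd2, hc2, hs2]
    obtain ⟨k, hk⟩ : ∃ k, n = i.val + 1 + k := ⟨n - (i.val + 1), by omega⟩
    have h1 : n - 1 - i.val = k := by omega
    rw [h1]
    have h2 : (⟨i.val + 1, hi⟩ : Fin n).val = i.val + 1 := rfl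
    rw [h2]
    have key : ∀ z k n : ℕ, n = z + 1 + k →
        n + z + 1 + (z + 1) * (n + 1) + (k * (n + 1) + (n + (z + 1) + 1) + 1) =
          n * n + 3 * n + 2 * z + 4 := by
      intro z k n h
      subst h
      ring
    exact key _ _ _ hk

theorem forces_aux {n : ℕ} : ∀ (k i : ℕ) (S : Finset (Vtx n)) (u : Vtx n), i + 1 + k = n →
    isTail i u → i + 1 ≤ S.card → (∀ y ∈ S, ∀ j, i < j → ¬ isTail j y) →
    Forces (pathStep (Gr n)) n S u := by
  intro k
  induction k with
  | zero =>
    intro i S u h _ hS _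
    exact Forces.done (by omega)
  | succ k ih =>
    intro i S u h hu hS hS'
    refine Forces.move (n * n + 3 * n + 2 * i + 4) (by omega) ?_ ?_
    · rcases u with i' | ⟨m, q⟩ | ⟨i', s⟩
      · exact absurd hu (by simp [isTail])
      · exact absurd hu (by simp [isTail])
      · simp only [isTail] at hu
        subst hu
        exact long i' s (by omega)
    · rintro x ⟨p, hp, hl⟩
      have hx : isTail (i + 1) x := upper (by omega) hu p hp hl
      have hxS : x ∉ S := fun hxS => hS' x hxS (i + 1) (by omega) hx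
      refine ih (i + 1) (insert x S) x (by omega) hx ?_ ?_
      · rw [Finset.card_insert_of_notMem hxS]
        omega
      · intro y hy j hj hyj
        rcases Finset.mem_insert.1 hy with rfl | hy
        · rcases y with i' | ⟨m, q⟩ | ⟨i', s⟩
          · exact absurd hx (by simp [isTail])
          · exact absurd hx (by simp [isTail])
          · simp only [isTail] at hx hyj
            omega
        · exact hS' y hy j (by omega) hyj

theorem le_fp {n : ℕ} (hn : 2 ≤ n) :
    n ≤ fp (Gr n) (tail ⟨0, by omega⟩ ⟨0, by omega⟩) := by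
  refine le_value (forces_aux (n - 1) 0 _ _ (by omega) ?_ ?_ ?_)
  · simp [isTail]
  · simp
  · intro y hy j hj
    rw [Finset.mem_singleton] at hy
    rw [hy]
    simp only [isTail]
    omega

theorem one_le_value {V : Type} [DecidableEq V] [Fintype V] (R : V → ℕ → V → Prop) (v : V) :
    1 ≤ value R v :=
  le_value (Forces.done (by simp))

/-- For every `n` there is a connected graph with `f_d ≤ 4` and `f_p ≥ n`; hence the ratio
`f_p / f_d` is unbounded. -/
theorem result :
    (∀ n : ℕ, ∃ (V : Type) (_ : Fintype V) (_ : DecidableEq V) (G : SimpleGraph V) (v : V),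
      G.Connected ∧ fd G v ≤ 4 ∧ n ≤ fp G v) ∧
    (∀ k : ℝ, ∃ (V : Type) (_ : Fintype V) (_ : DecidableEq V) (G : SimpleGraph V) (v : V),
      G.Connected ∧ 0 < fd G v ∧ k < (fp G v : ℝ) / (fd G v : ℝ)) := by
  constructor
  · intro n
    refine ⟨Vtx (n + 2), inferInstance, inferInstance, Gr (n + 2),
      tail ⟨0, by omega⟩ ⟨0, by omega⟩, connected_Gr _, fd_le (by omega), ?_⟩
    exact le_trans (by omega) (le_fp (n := n + 2) (by omega))
  · intro k
    obtain ⟨n, hn⟩ := exists_nat_gt (4 * k)
    have h1 := fd_le (n := n + 2) (by omega)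
    have h2 := le_fp (n := n + 2) (by omega)
    refine ⟨Vtx (n + 2), inferInstance, inferInstance, Gr (n + 2),
      tail ⟨0, by omega⟩ ⟨0, by omega⟩, connected_Gr _, ?_, ?_⟩
    · exact one_le_value _ _
    · have h3 : 0 < fd (Gr (n + 2)) (tail ⟨0, by omega⟩ ⟨0, by omega⟩) := one_le_value _ _
      generalize fd (Gr (n + 2)) (tail ⟨0, by omega⟩ ⟨0, by omega⟩) = a at *
      generalize fp (Gr (n + 2)) (tail ⟨0, by omega⟩ ⟨0, by omega⟩) = b at *
      have h3' : (0 : ℝ) < (a : ℝ) := by exact_mod_cast h3
      have h1' : (a : ℝ) ≤ 4 := by exact_mod_cast h1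
      have h2' : ((n + 2 : ℕ) : ℝ) ≤ (b : ℝ) := by exact_mod_cast h2
      push_cast at h2'
      rw [lt_div_iff₀ h3']
      rcases le_or_gt k 0 with hk | hk
      · have : k * (a : ℝ) ≤ 0 := mul_nonpos_of_nonpos_of_nonneg hk h3'.le
        have hn0 : (0 : ℝ) ≤ (n : ℝ) := Nat.cast_nonneg n
        linarith
      · have : k * (a : ℝ) ≤ k * 4 := mul_le_mul_of_nonneg_left h1' hk.le
        linarith

end Pool.Agent.Results.MP_5904a2_co.UnboundedRatio
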